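import Pool.Agent.Lib_helper31.FS.Core

set_option autoImplicit false

namespace Pool.Agent.FS

/-- numerical tables: masks are natural numbers, triples are coded by numbers below 64 -/
structure Tab where
  bx : ℕ → ℕ
  sM : ℕ → ℕ
  rt : ℕ → ℕ → ℕ
  a3 : ℕ → ℕ → ℕ
  su : ℕ → ℕ
  aA : ℕ → ℕ → ℕ
  n3 : ℕ → ℕ
  nA : ℕ → ℕ
  tw : ℕ → ℕ

def rows27 : List ℕ :=
  [21, 22, 23, 25, 26, 27, 29, 30, 31, 37, 38, 39, 41, 42, 43, 45, 46, 47,
   53, 54, 55, 57, 58, 59, 61, 62, 63]

def ALL : ℕ := 2 ^ 256 - 1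

def amo (y : ℕ) : Bool := y == 0 || y == 2 ^ (Nat.log2 y)

def two (y : ℕ) : Bool :=
  y.testBit (Nat.log2 y) && y.testBit (Nat.log2 (y ^^^ 2 ^ (Nat.log2 y))) &&
    !(Nat.log2 (y ^^^ 2 ^ (Nat.log2 y)) == Nat.log2 y)

def chkM (T : Tab) (F M : ℕ) : Bool :=
  (List.range 64).all fun x => !((F &&& T.bx x) == 0) || M.testBit x

def chkN (T : Tab) (M s N : ℕ) : Bool :=
  (List.range 4).all fun t => (List.range 64).all fun b =>
    !(N.testBit (b + 64 * t)) || amo (M &&& T.rt b (T.aA s t))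

def chkBox (T : Tab) (MB NB : ℕ → ℕ) : Bool :=
  (List.range 4).all fun s => (List.range 64).all fun x =>
    chkM T (T.bx x &&& T.sM s) (MB (x + 64 * s)) && chkN T (MB (x + 64 * s)) s (NB (x + 64 * s))

def chkClosed (T : Tab) (MC : ℕ → ℕ) : Bool :=
  rows27.all fun e => chkM T ((T.sM (T.su e)) &&& ((2 ^ 64 - 1) ^^^ 2 ^ e)) (MC e) &&
    chkN T (MC e) (T.su e) ALL

def chk2 (T : Tab) (NB EX : ℕ → ℕ) (fm : List ℕ) : Bool :=
  (List.range 4).all fun t => (List.range 64).all fun b =>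
    (b == 0 && t == 0) || fm.all fun m =>
      (EX (b + 64 * t) ||| rows27.foldl (fun acc p =>
        if m.testBit p then acc else acc ||| NB (T.a3 p b + 64 * T.aA (T.su p) t)) 0) == ALL

def chkF (T : Tab) (fm : List ℕ) : Bool :=
  (List.range 4).all fun t => (List.range 64).all fun b =>
    fm.any fun m => rows27.all fun p =>
      m.testBit p || two (T.bx (T.a3 (T.tw p) (T.n3 b)) &&& T.sM (T.aA (T.su p) (T.nA t)))

/-- image of a set of codes under a block -/
def img (T : Tab) (F b t : ℕ) : ℕ :=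
  (rows27.foldl (fun acc p => if F.testBit p then acc ||| T.bx (T.a3 p b) else acc) 0) &&& T.sM t

/-- image under a word of block indices -/
def run (T : Tab) : List ℕ → ℕ → ℕ → ℕ × ℕ
  | [], F, s => (F, s)
  | i :: w, F, s => run T w (img T F (i % 64) (T.aA s (i / 64))) (T.aA s (i / 64))

/-- a state: `(F, s, M, N)` -/
abbrev Sta := ℕ × ℕ × ℕ × ℕ

def chkSta (T : Tab) (S : Sta) : Bool := chkM T S.1 S.2.2.1 && chkN T S.2.2.1 S.2.1 S.2.2.2

/-- certificate for a word: the word, the exceptional next blocks, the rows `(code, state)` -/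
abbrev Cer := List ℕ × ℕ × List (ℕ × ℕ)

def chkCer (T : Tab) (st : ℕ → Sta) (fm : List ℕ) (C : Cer) : Bool :=
  (C.2.2.all fun q => rows27.contains q.1 &&
      (((st q.2).1 &&& (run T C.1 (2 ^ q.1) (T.su q.1)).1) == (st q.2).1) &&
      ((st q.2).2.1 == (run T C.1 (2 ^ q.1) (T.su q.1)).2)) &&
  (fm.all fun m => (C.2.1 ||| C.2.2.foldl (fun acc q =>
      if m.testBit q.1 then acc else acc ||| (st q.2).2.2.2) 0) == ALL)

section Snd
variable {A : Type} [AddCommGroup A]

structure Enc (A : Type) [AddCommGroup A] (T : Tab) where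
  c : T3 A → ℕ
  d : ℕ → T3 A
  e : A → ℕ
  hc : ∀ t, c t < 64
  hd : ∀ t, d (c t) = t
  he : ∀ a, e a < 4
  inj : Function.Injective e
  a3 : ∀ s t, c (s + t) = T.a3 (c s) (c t)
  n3 : ∀ s, c (-s) = T.n3 (c s)
  nA : ∀ s, e (-s) = T.nA (e s)
  tw : ∀ t, c (tw t) = T.tw (c t)
  su : ∀ t, e (sm t) = T.su (c t)
  aA : ∀ a b, e (a + b) = T.aA (e a) (e b)
  bx : ∀ x i, (T.bx (c x)).testBit i = true → ∃ l, c l = i ∧ nz l ∧ dj l x
  sM : ∀ (s : A) i, (T.sM (e s)).testBit i = true → ∃ l : T3 A, c l = i ∧ nz l ∧ sm l = s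
  rt : ∀ (b : T3 A) (t : A) (x : T3 A), nz (x + b) → sm (x + b) = t →
    (T.rt (c b) (e t)).testBit (c x) = true
  rows : ∀ p ∈ rows27, c (d p) = p ∧ nz (d p)
  rows' : ∀ t : T3 A, nz t → c t ∈ rows27
  zero : ∀ B : T3 A × A, c B.1 = 0 → e B.2 = 0 → B = 0

variable {T : Tab} (E : Enc A T)

theorem Enc.cinj {s t : T3 A} (h : E.c s = E.c t) : s = t := by
  rw [← E.hd s, ← E.hd t, h]

def Enc.ix (B : T3 A × A) : ℕ := E.c B.1 + 64 * E.e B.2

theorem Enc.ix_lt (B : T3 A × A) : E.ix B < 256 := by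
  have h1 := E.hc B.1; have h2 := E.he B.2; unfold Enc.ix; omega

theorem Enc.ix_mod (B : T3 A × A) : E.ix B % 64 = E.c B.1 := by
  have h1 := E.hc B.1; unfold Enc.ix; omega
theorem Enc.ix_div (B : T3 A × A) : E.ix B / 64 = E.e B.2 := by
  have h1 := E.hc B.1; unfold Enc.ix; omega

def Enc.Valid (l : T3 A) (w : List (T3 A × A)) (F : ℕ) : Prop :=
  ∀ i, F.testBit i = true → ∃ r, E.c r = i ∧ Reach w l r

theorem foldl_or {α : Type} (L : List α) (P : α → Bool) (g : α → ℕ) (a i : ℕ)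
    (h : (L.foldl (fun acc p => if P p then acc ||| g p else acc) a).testBit i = true) :
    a.testBit i = true ∨ ∃ p ∈ L, P p = true ∧ (g p).testBit i = true := by
  induction L generalizing a with
  | nil => exact Or.inl h
  | cons q L ih =>
    rw [List.foldl_cons] at h
    rcases ih _ h with h1 | ⟨p, hp, h1⟩
    · by_cases hq : P q = true
      · rw [if_pos hq, Nat.testBit_or, Bool.or_eq_true] at h1
        rcases h1 with h1 | h1
        · exact Or.inl h1
        · exact Or.inr ⟨q, List.mem_cons_self, hq, h1⟩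
      · rw [if_neg hq] at h1; exact Or.inl h1
    · exact Or.inr ⟨p, List.mem_cons_of_mem _ hp, h1⟩

theorem foldl_or' {α : Type} (L : List α) (P : α → Bool) (g : α → ℕ) (a i : ℕ)
    (h : (L.foldl (fun acc p => if P p then acc else acc ||| g p) a).testBit i = true) :
    a.testBit i = true ∨ ∃ p ∈ L, P p = false ∧ (g p).testBit i = true := by
  induction L generalizing a with
  | nil => exact Or.inl h
  | cons q L ih =>
    rw [List.foldl_cons] at h
    rcases ih _ h with h1 | ⟨p, hp, h1⟩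
    · by_cases hq : P q = true
      · rw [if_pos hq] at h1; exact Or.inl h1
      · rw [if_neg hq, Nat.testBit_or, Bool.or_eq_true] at h1
        rcases h1 with h1 | h1
        · exact Or.inl h1
        · exact Or.inr ⟨q, List.mem_cons_self, by simpa using hq, h1⟩
    · exact Or.inr ⟨p, List.mem_cons_of_mem _ hp, h1⟩

theorem valid_start (l : T3 A) (hl : nz l) : E.Valid l [] (2 ^ E.c l) := by
  intro i hi
  rw [Nat.testBit_two_pow] at hi
  exact ⟨l, by simpa using hi, hl, rfl⟩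

theorem valid_img (l : T3 A) (w : List (T3 A × A)) (F : ℕ) (hF : E.Valid l w F) (B : T3 A × A) :
    E.Valid l (w ++ [B]) (img T F (E.c B.1) (E.e (sm l + bs w + B.2))) := by
  intro i hi
  unfold img at hi
  rw [Nat.testBit_and, Bool.and_eq_true] at hi
  obtain ⟨h1, h2⟩ := hi
  obtain ⟨r, hr, hr1, hr2⟩ := E.sM _ _ h2
  rcases foldl_or _ (fun p => F.testBit p) (fun p => T.bx (T.a3 p (E.c B.1))) _ _ h1 with h | ⟨p, hp, hp1, hp2⟩
  · simp at h
  · obtain ⟨r0, h0, h0'⟩ := hF p hp1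
    rw [← h0, ← E.a3] at hp2
    obtain ⟨l', hl', hn, hdj⟩ := E.bx _ _ hp2
    have : l' = r := E.cinj (by rw [hl', hr])
    subst this
    refine ⟨l', hl', (reach_snoc _ _ _ _).2 ⟨r0, h0', ?_⟩⟩
    obtain ⟨g1, g2, g3⟩ := reach_sm _ _ _ h0'
    refine ⟨g2, hn, hdj, ?_⟩
    rw [hr2, g3]

theorem valid_run (l : T3 A) (v : List (T3 A × A)) : ∀ (w : List (T3 A × A)) (F : ℕ)
    (_ : E.Valid l w F), E.Valid l (w ++ v) (run T (v.map E.ix) F (E.e (sm l + bs w))).1 ∧
      (run T (v.map E.ix) F (E.e (sm l + bs w))).2 = E.e (sm l + bs (w ++ v)) := by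
  induction v with
  | nil => intro w F hF; simpa [run] using hF
  | cons B v ih =>
    intro w F hF
    have h1 := valid_img E l w F hF B
    have h2 := ih (w ++ [B]) _ h1
    rw [List.append_assoc, List.singleton_append] at h2
    have h3 : T.aA (E.e (sm l + bs w)) (E.e B.2) = E.e (sm l + bs w + B.2) := (E.aA _ _).symm
    have h4 : sm l + bs (w ++ [B]) = sm l + bs w + B.2 := by
      rw [bs_append, bs_cons, bs_nil]; abel
    rw [h4] at h2
    simp only [List.map_cons, run, E.ix_mod, E.ix_div, h3]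
    exact h2

theorem amo_sound {y i j : ℕ} (h : amo y = true) (hi : y.testBit i = true)
    (hj : y.testBit j = true) : i = j := by
  unfold amo at h
  rw [Bool.or_eq_true, beq_iff_eq, beq_iff_eq] at h
  rcases h with h | h
  · rw [h] at hi; simp at hi
  · rw [h, Nat.testBit_two_pow] at hi hj
    simp at hi hj; omega

theorem nf_sound (l : T3 A) (hl : nz l) (w : List (T3 A × A)) (F M N s : ℕ) (hF : E.Valid l w F)
    (hM : chkM T F M = true) (hs : s = E.e (sm l + bs w)) (hN : chkN T M s N = true)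
    (B : T3 A × A) (hB : N.testBit (E.ix B) = true) : NearFull l (w ++ [B]) := by
  classical
  subst hs
  refine ⟨hl, ?_⟩
  unfold chkN at hN
  rw [List.all_eq_true] at hN
  have h1 := hN (E.e B.2) (List.mem_range.2 (E.he _))
  rw [List.all_eq_true] at h1
  have h2 := h1 (E.c B.1) (List.mem_range.2 (E.hc _))
  have hB' : N.testBit (E.c B.1 + 64 * E.e B.2) = true := hB
  rw [hB'] at h2
  simp only [Bool.not_true, Bool.false_or] at h2
  rw [← E.aA] at h2
  -- every missing element gives a bit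
  have key : ∀ r, nz r → sm r = sm l + bs (w ++ [B]) → ¬ Reach (w ++ [B]) l r →
      (M &&& T.rt (E.c B.1) (E.e (sm l + bs w + B.2))).testBit (E.c (r - B.1)) = true := by
    intro r hr hs hn
    rw [Nat.testBit_and, Bool.and_eq_true]
    have e1 : r - B.1 + B.1 = r := by abel
    have e2 : sm l + bs (w ++ [B]) = sm l + bs w + B.2 := by
      rw [bs_append, bs_cons, bs_nil]; abel
    constructor
    · unfold chkM at hM
      rw [List.all_eq_true] at hM
      have h3 := hM (E.c (r - B.1)) (List.mem_range.2 (E.hc _))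
      rw [Bool.or_eq_true] at h3
      rcases h3 with h3 | h3
      · exfalso
        have h4 : (F &&& T.bx (E.c (r - B.1))) ≠ 0 := by simpa using h3
        obtain ⟨i, hi⟩ := Nat.exists_testBit_of_ne_zero h4
        rw [Nat.testBit_and, Bool.and_eq_true] at hi
        obtain ⟨m, hm, hm'⟩ := hF i hi.1
        obtain ⟨l', hl', -, hdj⟩ := E.bx _ _ hi.2
        have : l' = m := E.cinj (by rw [hl', hm])
        subst this
        apply hn
        rw [reach_snoc]
        refine ⟨l', hm', (reach_sm _ _ _ hm').2.1, hr, ?_, ?_⟩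
        · unfold dj at hdj ⊢
          obtain ⟨a1, a2, a3⟩ := hdj
          refine ⟨fun h => a1 ?_, fun h => a2 ?_, fun h => a3 ?_⟩
          · rw [Prod.fst_sub, h, Prod.fst_add, add_sub_cancel_right]
          · rw [Prod.snd_sub, Prod.fst_sub, h, Prod.snd_add, Prod.fst_add, add_sub_cancel_right]
          · rw [Prod.snd_sub, Prod.snd_sub, h, Prod.snd_add, Prod.snd_add, add_sub_cancel_right]
        · rw [(reach_sm _ _ _ hm').2.2, hs, e2]
      · exact h3
    · apply E.rt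
      · rw [e1]; exact hr
      · rw [e1, hs, e2]
  by_cases hex : ∃ e : T3 A, nz e ∧ sm e = sm l + bs (w ++ [B]) ∧ ¬ Reach (w ++ [B]) l e
  · obtain ⟨e, he1, he2, he3⟩ := hex
    refine ⟨e, fun r hr hs hne => ?_⟩
    by_contra hcon
    apply hne
    have h5 := amo_sound h2 (key r hr hs hcon) (key e he1 he2 he3)
    have h6 := E.cinj h5
    have : r = e := by
      have := congrArg (· + B.1) h6
      simpa using this
    exact this
  · push Not at hex
    exact ⟨0, fun r hr hs _ => hex r hr hs⟩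

include E in
/-- the closure of near-fullness -/
theorem nearFull_ext (MC : ℕ → ℕ) (hC : chkClosed T MC = true)
    (hex : ∀ s : A, ∃ t : T3 A, nz t ∧ sm t = s)
    (l : T3 A) (w : List (T3 A × A)) (h : NearFull l w) (B : T3 A × A) :
    NearFull l (w ++ [B]) := by
  classical
  obtain ⟨hl, e0, he0⟩ := h
  obtain ⟨e, he1, he2, he3⟩ : ∃ e : T3 A, nz e ∧ sm e = sm l + bs w ∧
      ∀ r, nz r → sm r = sm l + bs w → r ≠ e → Reach w l r := by
    by_cases hc : nz e0 ∧ sm e0 = sm l + bs w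
    · exact ⟨e0, hc.1, hc.2, he0⟩
    · obtain ⟨t, ht1, ht2⟩ := hex (sm l + bs w)
      refine ⟨t, ht1, ht2, fun r hr hs _ => he0 r hr hs ?_⟩
      rintro rfl
      exact hc ⟨hr, hs⟩
  unfold chkClosed at hC
  rw [List.all_eq_true] at hC
  have h1 := hC (E.c e) (E.rows' e he1)
  rw [Bool.and_eq_true, ← E.su, he2] at h1
  refine nf_sound E l hl w _ _ _ _ ?_ h1.1 rfl h1.2 B ?_
  · intro i hi
    rw [Nat.testBit_and, Bool.and_eq_true, Nat.testBit_xor, Nat.testBit_two_pow] at hi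
    obtain ⟨r, hr, hr1, hr2⟩ := E.sM _ _ hi.1
    refine ⟨r, hr, he3 r hr1 hr2 ?_⟩
    rintro rfl
    have hlt : i < 64 := by rw [← hr]; exact E.hc _
    have := hi.2
    rw [hr, Nat.testBit_two_pow_sub_one] at this
    simp [hlt] at this
  · unfold ALL
    rw [Nat.testBit_two_pow_sub_one]
    simpa using E.ix_lt B

/-- enough near-full rows -/
def Enc.OKP (fm : List ℕ) (w : List (T3 A × A)) : Prop :=
  ∀ m ∈ fm, ∃ l : T3 A, nz l ∧ m.testBit (E.c l) = false ∧ NearFull l w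

theorem okp_ext (MC : ℕ → ℕ) (hC : chkClosed T MC = true)
    (hex : ∀ s : A, ∃ t : T3 A, nz t ∧ sm t = s) (fm : List ℕ) (w v : List (T3 A × A))
    (h : E.OKP fm w) : E.OKP fm (w ++ v) := by
  induction v generalizing w with
  | nil => simpa using h
  | cons B v ih =>
    have : w ++ B :: v = (w ++ [B]) ++ v := by simp
    rw [this]
    apply ih
    intro m hm
    obtain ⟨l, h1, h2, h3⟩ := h m hm
    exact ⟨l, h1, h2, nearFull_ext E MC hC hex l w h3 B⟩

/-- closing -/
theorem closes_of_okp (fm : List ℕ) (hf : chkF T fm = true) (w : List (T3 A × A))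
    (h : E.OKP fm w) (B : T3 A × A) (hs : bs (w ++ [B]) = 0) : Closes (w ++ [B]) := by
  unfold chkF at hf
  rw [List.all_eq_true] at hf
  have h1 := hf (E.e B.2) (List.mem_range.2 (E.he _))
  rw [List.all_eq_true] at h1
  have h2 := h1 (E.c B.1) (List.mem_range.2 (E.hc _))
  rw [List.any_eq_true] at h2
  obtain ⟨m, hm, h3⟩ := h2
  rw [List.all_eq_true] at h3
  obtain ⟨l, hl, hl2, hl3, e, he⟩ := h m hm
  have h4 := h3 (E.c l) (E.rows' l hl)
  rw [hl2, Bool.false_or, ← E.tw, ← E.n3, ← E.a3, ← E.nA, ← E.su, ← E.aA] at h4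
  unfold two at h4
  rw [Bool.and_eq_true, Bool.and_eq_true] at h4
  obtain ⟨⟨g1, g2⟩, g3⟩ := h4
  have hne := by simpa using g3
  have get : ∀ i, (T.bx (E.c (tw l + -B.1)) &&& T.sM (E.e (sm l + -B.2))).testBit i = true →
      ∃ p : T3 A, E.c p = i ∧ nz p ∧ sm p = sm l + bs w ∧ Step B p (tw l) := by
    intro i hi
    rw [Nat.testBit_and, Bool.and_eq_true] at hi
    obtain ⟨p, hp, hp1, hp2⟩ := E.bx _ _ hi.1
    obtain ⟨q, hq, -, hq2⟩ := E.sM _ _ hi.2
    have : q = p := E.cinj (by rw [hq, hp])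
    subst this
    have hbw : bs w = -B.2 := by
      rw [bs_append, bs_cons, bs_nil] at hs
      have : bs w + B.2 = 0 := by simpa using hs
      exact eq_neg_of_add_eq_zero_left this
    refine ⟨q, hp, hp1, by rw [hq2, hbw], hp1, (nz_tw l).2 hl, ?_, ?_⟩
    · unfold dj at hp2 ⊢
      obtain ⟨a1, a2, a3⟩ := hp2
      refine ⟨fun h => a1 ?_, fun h => a2 ?_, fun h => a3 ?_⟩
      · rw [Prod.fst_add, Prod.fst_neg, h, Prod.fst_add, add_neg_cancel_right]
      · rw [Prod.snd_add, Prod.snd_neg, Prod.fst_add, Prod.fst_neg, h, Prod.snd_add, Prod.fst_add,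
          add_neg_cancel_right]
      · rw [Prod.snd_add, Prod.snd_neg, Prod.snd_add, Prod.snd_neg, h, Prod.snd_add, Prod.snd_add,
          add_neg_cancel_right]
    · rw [sm_tw, hq2]; abel
  obtain ⟨p, hp1, hp2, hp3, hp4⟩ := get _ g1
  obtain ⟨q, hq1, hq2, hq3, hq4⟩ := get _ g2
  have hpq : p ≠ q := by
    rintro rfl
    apply hne
    rw [← hq1, hp1]
  by_cases hpe : p = e
  · have hqe : q ≠ e := fun h => hpq (by rw [hpe, h])
    exact ⟨l, (reach_snoc _ _ _ _).2 ⟨q, he q hq2 hq3 hqe, hq4⟩⟩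
  · exact ⟨l, (reach_snoc _ _ _ _).2 ⟨p, he p hp2 hp3 hpe, hp4⟩⟩

/-- words of two blocks -/
theorem okp_two (fm : List ℕ) (MB NB EX : ℕ → ℕ) (hb : chkBox T MB NB = true)
    (h2 : chk2 T NB EX fm = true) (B1 B2 : T3 A × A) (hne : B1 ≠ 0)
    (hx : (EX (E.ix B1)).testBit (E.ix B2) = false) : E.OKP fm [B1, B2] := by
  intro m hm
  unfold chk2 at h2
  rw [List.all_eq_true] at h2
  have h3 := h2 (E.e B1.2) (List.mem_range.2 (E.he _))
  rw [List.all_eq_true] at h3
  have h4 := h3 (E.c B1.1) (List.mem_range.2 (E.hc _))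
  rw [Bool.or_eq_true] at h4
  rcases h4 with h4 | h4
  · exfalso; apply hne
    rw [Bool.and_eq_true, beq_iff_eq, beq_iff_eq] at h4
    exact E.zero B1 h4.1 h4.2
  rw [List.all_eq_true] at h4
  have h5 := h4 m hm
  rw [beq_iff_eq] at h5
  have h6 : (ALL).testBit (E.ix B2) = true := by
    unfold ALL; rw [Nat.testBit_two_pow_sub_one]; simpa using E.ix_lt B2
  rw [← h5, Nat.testBit_or, Bool.or_eq_true] at h6
  rcases h6 with h6 | h6
  · exfalso
    have : (EX (E.c B1.1 + 64 * E.e B1.2)).testBit (E.ix B2) = false := hx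
    rw [this] at h6; exact absurd h6 (by simp)
  rcases foldl_or' _ (fun p => m.testBit p) _ _ _ h6 with h | ⟨p, hp, hp1, hp2⟩
  · simp at h
  obtain ⟨hc, hnz⟩ := E.rows p hp
  refine ⟨E.d p, hnz, by rw [hc]; exact hp1, ?_⟩
  have e1 : T.a3 p (E.c B1.1) = E.c (E.d p + B1.1) := by rw [E.a3, hc]
  have e2 : T.aA (T.su p) (E.e B1.2) = E.e (sm (E.d p) + B1.2) := by rw [E.aA, E.su, hc]
  rw [e1, e2] at hp2
  unfold chkBox at hb
  rw [List.all_eq_true] at hb
  have b1 := hb (E.e (sm (E.d p) + B1.2)) (List.mem_range.2 (E.he _))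
  rw [List.all_eq_true] at b1
  have b2 := b1 (E.c (E.d p + B1.1)) (List.mem_range.2 (E.hc _))
  rw [Bool.and_eq_true] at b2
  have hv : E.Valid (E.d p) [B1]
      (T.bx (E.c (E.d p + B1.1)) &&& T.sM (E.e (sm (E.d p) + B1.2))) := by
    intro i hi
    rw [Nat.testBit_and, Bool.and_eq_true] at hi
    obtain ⟨r, hr, hr1, hr2⟩ := E.bx _ _ hi.1
    obtain ⟨q, hq, -, hq2⟩ := E.sM _ _ hi.2
    have : q = r := E.cinj (by rw [hq, hr])
    subst this
    exact ⟨q, hq, (reach_one _ _ _).2 ⟨hnz, hr1, hr2, hq2⟩⟩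
  have := nf_sound E (E.d p) hnz [B1] _ _ _ _ hv b2.1 (by simp [bs_cons, bs_nil]) b2.2 B2 hp2
  simpa using this

/-- words with a certificate -/
theorem okp_cer (fm : List ℕ) (st : ℕ → Sta) (C : Cer) (hC : chkCer T st fm C = true)
    (hst : ∀ q ∈ C.2.2, chkSta T (st q.2) = true)
    (w : List (T3 A × A)) (hw : w.map E.ix = C.1) (B : T3 A × A)
    (hB : (C.2.1).testBit (E.ix B) = false) : E.OKP fm (w ++ [B]) := by
  intro m hm
  unfold chkCer at hC
  rw [Bool.and_eq_true, List.all_eq_true, List.all_eq_true] at hC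
  have h5 := hC.2 m hm
  rw [beq_iff_eq] at h5
  have h6 : (ALL).testBit (E.ix B) = true := by
    unfold ALL; rw [Nat.testBit_two_pow_sub_one]; simpa using E.ix_lt B
  rw [← h5, Nat.testBit_or, Bool.or_eq_true] at h6
  rcases h6 with h6 | h6
  · exfalso; rw [hB] at h6; exact absurd h6 (by simp)
  rcases foldl_or' _ (fun q : ℕ × ℕ => m.testBit q.1) _ _ _ h6 with h | ⟨q, hq, hq1, hq2⟩
  · simp at h
  have h7 := hC.1 q hq
  rw [Bool.and_eq_true, Bool.and_eq_true, beq_iff_eq, beq_iff_eq] at h7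
  obtain ⟨⟨h8, h9⟩, h10⟩ := h7
  have hmem : q.1 ∈ rows27 := by simpa using h8
  obtain ⟨hc, hnz⟩ := E.rows q.1 hmem
  refine ⟨E.d q.1, hnz, by rw [hc]; exact hq1, ?_⟩
  have hv0 := valid_start E (E.d q.1) hnz
  obtain ⟨hv, hs⟩ := valid_run E (E.d q.1) w [] _ hv0
  rw [bs_nil, add_zero, hw, hc, List.nil_append, E.su, hc] at hv hs
  have hv' : E.Valid (E.d q.1) w (st q.2).1 := by
    intro i hi
    apply hv
    rw [← h9, Nat.testBit_and, Bool.and_eq_true] at hi
    exact hi.2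
  have hS := hst q hq
  unfold chkSta at hS
  rw [Bool.and_eq_true] at hS
  exact nf_sound E (E.d q.1) hnz w _ _ _ _ hv' hS.1 (by rw [h10, hs]) hS.2 B hq2

end Snd

end Pool.Agent.FS
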