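import Mathlib

set_option autoImplicit false

namespace Pool.Agent.FS

/-- triples of group elements -/
abbrev T3 (A : Type) := A × A × A

section Sem
variable {A : Type} [AddCommGroup A]

def nz (t : T3 A) : Prop := t.1 ≠ 0 ∧ t.2.1 ≠ 0 ∧ t.2.2 ≠ 0
def sm (t : T3 A) : A := t.1 + t.2.1 + t.2.2
def dj (s t : T3 A) : Prop := s.1 ≠ t.1 ∧ s.2.1 ≠ t.2.1 ∧ s.2.2 ≠ t.2.2
/-- exchange the last two tracks -/
def tw {X : Type} (t : T3 X) : T3 X := (t.1, t.2.2, t.2.1)

instance instDecNz [DecidableEq A] (t : T3 A) : Decidable (nz t) := by unfold nz; infer_instance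
instance instDecDj [DecidableEq A] (s t : T3 A) : Decidable (dj s t) := by unfold dj; infer_instance

/-- one block: `l` the triple of values entering, `r` the triple of values leaving -/
def Step (B : T3 A × A) (l r : T3 A) : Prop :=
  nz l ∧ nz r ∧ dj r (l + B.1) ∧ sm r = sm l + B.2

def Reach : List (T3 A × A) → T3 A → T3 A → Prop
  | [], l, r => nz l ∧ l = r
  | B :: w, l, r => ∃ m, Step B l m ∧ Reach w m r

def bs (w : List (T3 A × A)) : A := (w.map Prod.snd).sum

theorem bs_nil : bs ([] : List (T3 A × A)) = 0 := rfl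
theorem bs_cons (B : T3 A × A) (w : List (T3 A × A)) : bs (B :: w) = B.2 + bs w := by
  simp [bs]
theorem bs_append (u w : List (T3 A × A)) : bs (u ++ w) = bs u + bs w := by
  simp [bs]

theorem reach_append (u w : List (T3 A × A)) (l r : T3 A) :
    Reach (u ++ w) l r ↔ ∃ m, Reach u l m ∧ Reach w m r := by
  induction u generalizing l with
  | nil =>
    constructor
    · intro h
      refine ⟨l, ⟨?_, rfl⟩, h⟩
      cases w with
      | nil => exact h.1
      | cons B w => obtain ⟨m, hm, -⟩ := h; exact hm.1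
    · rintro ⟨m, ⟨-, rfl⟩, h⟩; exact h
  | cons B u ih =>
    constructor
    · rintro ⟨m, hm, h⟩
      obtain ⟨m', h1, h2⟩ := (ih m).1 h
      exact ⟨m', ⟨m, hm, h1⟩, h2⟩
    · rintro ⟨m', ⟨m, hm, h1⟩, h2⟩
      exact ⟨m, hm, (ih m).2 ⟨m', h1, h2⟩⟩

theorem reach_one (B : T3 A × A) (l r : T3 A) : Reach [B] l r ↔ Step B l r := by
  constructor
  · rintro ⟨m, hm, h, rfl⟩; exact hm
  · intro h; exact ⟨r, h, h.2.1, rfl⟩

theorem reach_snoc (w : List (T3 A × A)) (B : T3 A × A) (l r : T3 A) :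
    Reach (w ++ [B]) l r ↔ ∃ m, Reach w l m ∧ Step B m r := by
  rw [reach_append]; simp only [reach_one]

theorem reach_sm (w : List (T3 A × A)) (l r : T3 A) (h : Reach w l r) :
    nz l ∧ nz r ∧ sm r = sm l + bs w := by
  induction w generalizing l with
  | nil => obtain ⟨h1, rfl⟩ := h; exact ⟨h1, h1, by simp [bs_nil]⟩
  | cons B w ih =>
    obtain ⟨m, hm, h⟩ := h
    obtain ⟨h1, h2, h3⟩ := ih m h
    refine ⟨hm.1, h2, ?_⟩
    rw [h3, hm.2.2.2, bs_cons]; abel

/-- the row of `l` misses at most one element -/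
def NearFull (l : T3 A) (w : List (T3 A × A)) : Prop :=
  nz l ∧ ∃ e : T3 A, ∀ r, nz r → sm r = sm l + bs w → r ≠ e → Reach w l r

theorem tw_tw {X : Type} (t : T3 X) : tw (tw t) = t := rfl
theorem nz_tw (t : T3 A) : nz (tw t) ↔ nz t := by unfold nz tw; tauto
theorem sm_tw (t : T3 A) : sm (tw t) = sm t := by unfold sm tw; simp only; abel
theorem dj_tw (s t : T3 A) : dj (tw s) (tw t) ↔ dj s t := by unfold dj tw; tauto
theorem tw_add (s t : T3 A) : tw (s + t) = tw s + tw t := rfl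

/-- a block with the last two tracks exchanged -/
def twB (B : T3 A × A) : T3 A × A := (tw B.1, B.2)

theorem step_tw (B : T3 A × A) (l r : T3 A) : Step (twB B) (tw l) (tw r) ↔ Step B l r := by
  unfold Step twB
  simp only [nz_tw, sm_tw, ← tw_add, dj_tw]

theorem reach_tw (w : List (T3 A × A)) (l r : T3 A) :
    Reach (w.map twB) (tw l) (tw r) ↔ Reach w l r := by
  induction w generalizing l with
  | nil =>
    constructor
    · rintro ⟨h1, h2⟩; exact ⟨(nz_tw l).1 h1, by simpa [tw_tw] using congrArg tw h2⟩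
    · rintro ⟨h1, rfl⟩; exact ⟨(nz_tw l).2 h1, rfl⟩
  | cons B w ih =>
    constructor
    · rintro ⟨m, hm, h⟩
      refine ⟨tw m, ?_, ?_⟩
      · rw [← step_tw, tw_tw]; exact hm
      · rw [← ih, tw_tw]; exact h
    · rintro ⟨m, hm, h⟩
      exact ⟨tw m, (step_tw B l m).2 hm, (ih m).2 h⟩

/-- the word closes up (with the exchange of two tracks) -/
def Closes (w : List (T3 A × A)) : Prop := ∃ l, Reach w l (tw l)

theorem closes_rotate (u w : List (T3 A × A)) (h : Closes (w ++ u.map twB)) : Closes (u ++ w) := by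
  obtain ⟨l, hl⟩ := h
  obtain ⟨m, h1, h2⟩ := (reach_append _ _ _ _).1 hl
  -- l -w-> m -u'-> tw l ; so tw m -u-> l -w-> m
  refine ⟨tw m, (reach_append _ _ _ _).2 ⟨l, ?_, ?_⟩⟩
  · rw [← reach_tw, tw_tw]; exact h2
  · rw [tw_tw]; exact h1

end Sem

end Pool.Agent.FS
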