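import Pool.Agent.Lib_helper31.FS.Word
import Pool.Agent.Lib_helper31.FS.DataV

set_option autoImplicit false

namespace Pool.Agent.FS.GV

abbrev A := ZMod 2 × ZMod 2

def e (a : A) : ℕ := a.1.val + 2 * a.2.val
def dA : ℕ → A
  | 0 => (0, 0)
  | 1 => (1, 0)
  | 2 => (0, 1)
  | _ => (1, 1)
def c (t : T3 A) : ℕ := e t.1 + 4 * e t.2.1 + 16 * e t.2.2
def d (i : ℕ) : T3 A := (dA (i % 4), dA (i / 4 % 4), dA (i / 16))

theorem he : ∀ a : A, e a < 4 := by decide
theorem hdA : ∀ a : A, dA (e a) = a := by decide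
theorem heA : ∀ i : Fin 4, e (dA i) = i := by decide

theorem hc (t : T3 A) : c t < 64 := by
  have h1 := he t.1; have h2 := he t.2.1; have h3 := he t.2.2
  unfold c; omega

theorem hd (t : T3 A) : d (c t) = t := by
  have h1 := he t.1; have h2 := he t.2.1; have h3 := he t.2.2
  unfold d
  have e1 : c t % 4 = e t.1 := by unfold c; omega
  have e2 : c t / 4 % 4 = e t.2.1 := by unfold c; omega
  have e3 : c t / 16 = e t.2.2 := by unfold c; omega
  rw [e1, e2, e3, hdA, hdA, hdA]

theorem cd : ∀ i : Fin 64, c (d i) = i := by decide +kernel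

theorem all2 (P : T3 A → T3 A → Prop) (h : ∀ i j : Fin 64, P (d i) (d j)) (s t : T3 A) :
    P s t := by
  have := h ⟨c s, hc s⟩ ⟨c t, hc t⟩
  simpa only [hd] using this

theorem all1 (P : T3 A → Prop) (h : ∀ i : Fin 64, P (d i)) (s : T3 A) : P s := by
  have := h ⟨c s, hc s⟩
  simpa only [hd] using this

theorem f_a3 : ∀ i j : Fin 64, c (d i + d j) = T.a3 (c (d i)) (c (d j)) := by decide +kernel
theorem f_n3 : ∀ i : Fin 64, c (-(d i)) = T.n3 (c (d i)) := by decide +kernel
theorem f_tw : ∀ i : Fin 64, c (tw (d i)) = T.tw (c (d i)) := by decide +kernel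
theorem f_su : ∀ i : Fin 64, e (sm (d i)) = T.su (c (d i)) := by decide +kernel
theorem f_nA : ∀ a : A, e (-a) = T.nA (e a) := by decide +kernel
theorem f_aA : ∀ a b : A, e (a + b) = T.aA (e a) (e b) := by decide +kernel
theorem f_bx : ∀ i j : Fin 64, (T.bx (c (d i))).testBit j = true → nz (d j) ∧ dj (d j) (d i) := by
  decide +kernel
theorem f_sM : ∀ (s : A) (j : Fin 64), (T.sM (e s)).testBit j = true → nz (d j) ∧ sm (d j) = s := by
  decide +kernel
theorem f_rt : ∀ (i j : Fin 64), nz (d j + d i) →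
    (T.rt (c (d i)) (e (sm (d j + d i)))).testBit (c (d j)) = true := by
  decide +kernel
theorem f_rows : ∀ p ∈ rows27, c (d p) = p ∧ nz (d p) := by decide +kernel
theorem f_rows' : ∀ i : Fin 64, nz (d i) → c (d i) ∈ rows27 := by decide +kernel
theorem hex : ∀ s : A, ∃ t : T3 A, nz t ∧ sm t = s := by decide +kernel

theorem lt64 (x j : ℕ) (h : (x &&& (2 ^ 64 - 1)).testBit j = true) : j < 64 := by
  rw [Nat.testBit_and, Nat.testBit_two_pow_sub_one] at h
  simp at h
  exact h.2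

def E : Enc A T where
  c := c
  d := d
  e := e
  hc := hc
  hd := hd
  he := he
  inj := Function.LeftInverse.injective hdA
  a3 := all2 (fun s t => c (s + t) = T.a3 (c s) (c t)) f_a3
  n3 := all1 (fun s => c (-s) = T.n3 (c s)) f_n3
  nA := f_nA
  tw := all1 (fun s => c (tw s) = T.tw (c s)) f_tw
  su := all1 (fun s => e (sm s) = T.su (c s)) f_su
  aA := f_aA
  bx := by
    intro x i h
    have hi : i < 64 := lt64 _ _ h
    have h1 := f_bx ⟨c x, hc x⟩ ⟨i, hi⟩
    simp only [hd] at h1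
    have h2 := h1 h
    exact ⟨d i, cd ⟨i, hi⟩, h2.1, h2.2⟩
  sM := by
    intro s i h
    have hi : i < 64 := lt64 _ _ h
    have h2 := f_sM s ⟨i, hi⟩ h
    exact ⟨d i, cd ⟨i, hi⟩, h2.1, h2.2⟩
  rt := by
    intro b t x h1 h2
    subst h2
    have h3 := f_rt ⟨c b, hc b⟩ ⟨c x, hc x⟩
    simp only [hd] at h3
    exact h3 h1
  rows := f_rows
  rows' := all1 (fun s => nz s → c s ∈ rows27) f_rows'
  zero := by
    intro B h1 h2
    have e1 : B.1 = 0 := by rw [← hd B.1, h1]; decide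
    have e2 : B.2 = 0 := by rw [← hdA B.2, h2]; decide
    exact Prod.ext e1 e2

end Pool.Agent.FS.GV
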