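import Pool.Agent.Lib_helper31.FS.Word

set_option autoImplicit false

namespace Pool.Agent.FS

/-- The flower graph with `n` blocks. The vertex `(i, 0)` is the centre of block `i`, joined to the
three vertices `(i, 1)`, `(i, 2)`, `(i, 3)`; consecutive blocks are joined track by track, and the
last block is joined to the first one with the tracks `2` and `3` exchanged. -/
def FlowerRel (n : ℕ) (u v : Fin n × Fin 4) : Prop :=
  (u.1 = v.1 ∧ u.2 = 0 ∧ v.2 ≠ 0) ∨
  (u.2 ≠ 0 ∧ u.1.val + 1 = v.1.val ∧ v.2 = u.2) ∨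
  (u.2 ≠ 0 ∧ u.1.val + 1 = n ∧ v.1.val = 0 ∧ v.2 = Equiv.swap 2 3 u.2)

def flower (n : ℕ) : SimpleGraph (Fin n × Fin 4) := SimpleGraph.fromRel (FlowerRel n)

/-- `b` is the boundary of a nowhere-zero function -/
def Admissible {V A : Type} [Fintype V] [AddCommGroup A] (G : SimpleGraph V) (b : V → A) : Prop :=
  ∃ f : V → V → A, (∀ u v, G.Adj u v → f u v ≠ 0) ∧ (∀ u v, ¬ G.Adj u v → f u v = 0) ∧
    (∀ u v, f u v = - f v u) ∧ ∀ v, ∑ u, f v u = b v

section Geo
variable {n : ℕ}

def swp : Equiv.Perm (Fin 4) := Equiv.swap 2 3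

theorem swp_swp (s : Fin 4) : swp (swp s) = s := by revert s; decide
theorem swp_ne (s : Fin 4) : swp s ≠ 0 ↔ s ≠ 0 := by revert s; decide

def nx (v : Fin n × Fin 4) : Fin n × Fin 4 :=
  if h : v.1.val + 1 < n then (⟨v.1.val + 1, h⟩, v.2) else (⟨0, by have := v.1.2; omega⟩, swp v.2)

def pv (v : Fin n × Fin 4) : Fin n × Fin 4 :=
  if h : 0 < v.1.val then (⟨v.1.val - 1, by have := v.1.2; omega⟩, v.2)
  else (⟨n - 1, by have := v.1.2; omega⟩, swp v.2)

theorem pv_nx (v : Fin n × Fin 4) : pv (nx v) = v := by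
  have h0 := v.1.2
  by_cases h : v.1.val + 1 < n
  · have e1 : nx v = (⟨v.1.val + 1, h⟩, v.2) := by unfold nx; rw [dif_pos h]
    rw [e1]; unfold pv
    rw [dif_pos (by simp)]
    ext <;> simp
  · have e1 : nx v = (⟨0, by omega⟩, swp v.2) := by unfold nx; rw [dif_neg h]
    rw [e1]; unfold pv
    rw [dif_neg (by simp)]
    ext
    · simp; omega
    · simp [swp_swp]

theorem nx_pv (v : Fin n × Fin 4) : nx (pv v) = v := by
  have h0 := v.1.2
  by_cases h : 0 < v.1.val
  · have e1 : pv v = (⟨v.1.val - 1, by omega⟩, v.2) := by unfold pv; rw [dif_pos h]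
    rw [e1]; unfold nx
    rw [dif_pos (by simp; omega)]
    ext
    · simp; omega
    · simp
  · have e1 : pv v = (⟨n - 1, by omega⟩, swp v.2) := by unfold pv; rw [dif_neg h]
    rw [e1]; unfold nx
    rw [dif_neg (by simp; omega)]
    ext
    · simp; omega
    · simp [swp_swp]

def nxE : Equiv.Perm (Fin n × Fin 4) := ⟨nx, pv, pv_nx, nx_pv⟩

theorem nx_ne (v : Fin n × Fin 4) : (nx v).2 ≠ 0 ↔ v.2 ≠ 0 := by
  unfold nx
  split
  · rfl
  · exact swp_ne _

theorem rel_iff (u v : Fin n × Fin 4) :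
    FlowerRel n u v ↔ (u.1 = v.1 ∧ u.2 = 0 ∧ v.2 ≠ 0) ∨ (u.2 ≠ 0 ∧ nx u = v) := by
  have h1 := u.1.2
  have h2 := v.1.2
  unfold FlowerRel
  constructor
  · rintro (h | ⟨h, h', h''⟩ | ⟨h, h', h'', h3⟩)
    · exact Or.inl h
    · refine Or.inr ⟨h, ?_⟩
      unfold nx
      rw [dif_pos (by omega)]
      ext
      · exact h'
      · rw [h'']
    · refine Or.inr ⟨h, ?_⟩
      unfold nx
      rw [dif_neg (by omega)]
      ext
      · exact h''.symm
      · rw [h3]; rfl
  · rintro (h | ⟨h, h'⟩)
    · exact Or.inl h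
    · right
      unfold nx at h'
      by_cases hc : u.1.val + 1 < n
      · rw [dif_pos hc] at h'
        left
        rw [← h']
        exact ⟨h, rfl, rfl⟩
      · rw [dif_neg hc] at h'
        right
        rw [← h']
        exact ⟨h, by omega, rfl, rfl⟩

theorem nx_ne_self (hn : 2 ≤ n) (u : Fin n × Fin 4) : nx u ≠ u := by
  have h1 := u.1.2
  intro h
  have h2 := congrArg (fun v : Fin n × Fin 4 => v.1.val) h
  unfold nx at h2
  by_cases hc : u.1.val + 1 < n
  · rw [dif_pos hc] at h2; simp at h2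
  · rw [dif_neg hc] at h2; simp at h2; omega

theorem nx_nx_ne (hn : 3 ≤ n) (u : Fin n × Fin 4) : nx (nx u) ≠ u := by
  have h1 := u.1.2
  intro h
  have h2 := congrArg (fun v : Fin n × Fin 4 => v.1.val) h
  have h3 : (nx u).1.val = if u.1.val + 1 < n then u.1.val + 1 else 0 := by
    unfold nx; split <;> rfl
  have h4 : (nx (nx u)).1.val = if (nx u).1.val + 1 < n then (nx u).1.val + 1 else 0 := by
    generalize nx u = w
    unfold nx; split <;> rfl
  have h2' : (nx (nx u)).1.val = u.1.val := h2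
  clear h2
  have h2 := h2'
  rw [h4, h3] at h2
  split at h2 <;> split at h2 <;> omega

theorem rel_asymm (hn : 3 ≤ n) (u v : Fin n × Fin 4) (h : FlowerRel n u v) :
    ¬ FlowerRel n v u := by
  rw [rel_iff] at h ⊢
  rintro (h' | h')
  · rcases h with h | h
    · exact h.2.2 h'.2.1
    · have := (nx_ne u).2 h.1
      rw [h.2] at this
      exact this h'.2.1
  · rcases h with h | h
    · have := (nx_ne v).2 h'.1
      rw [h'.2] at this
      exact this h.2.1
    · apply nx_nx_ne hn u
      rw [h.2, h'.2]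

theorem adj_iff (hn : 3 ≤ n) (u v : Fin n × Fin 4) :
    (flower n).Adj u v ↔ FlowerRel n u v ∨ FlowerRel n v u := by
  unfold flower
  rw [SimpleGraph.fromRel_adj]
  constructor
  · exact fun h => h.2
  · intro h
    refine ⟨?_, h⟩
    rintro rfl
    rcases h with h | h <;> exact rel_asymm hn _ _ h h

end Geo

section Alg
variable {n : ℕ} {A : Type} [AddCommGroup A]

def comp (t : T3 A) : Fin 4 → A
  | 0 => 0
  | 1 => t.1
  | 2 => t.2.1
  | 3 => t.2.2

/-- the block of `b` at position `i` -/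
def blk (b : Fin n × Fin 4 → A) (i : Fin n) : T3 A × A :=
  ((b (i, 1), b (i, 2), b (i, 3)), b (i, 0) + b (i, 1) + b (i, 2) + b (i, 3))

theorem reach_iff (w : List (T3 A × A)) (l r : T3 A) (h : Reach w l r) :
    ∃ m : ℕ → T3 A, m 0 = l ∧ m w.length = r ∧
      ∀ (i : ℕ) (hi : i < w.length), Step w[i] (m i) (m (i + 1)) := by
  induction w generalizing l with
  | nil => exact ⟨fun _ => l, rfl, h.2, fun i hi => absurd hi (by simp)⟩
  | cons B w ih =>
    obtain ⟨m1, h1, h2⟩ := h
    obtain ⟨m, hm0, hm1, hm2⟩ := ih m1 h2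
    refine ⟨fun k => if k = 0 then l else m (k - 1), by simp, by simp [hm1], ?_⟩
    intro i hi
    rcases Nat.eq_zero_or_pos i with h | h
    · subst h; simpa [hm0] using h1
    · obtain ⟨j, rfl⟩ := Nat.exists_eq_succ_of_ne_zero h.ne'
      have := hm2 j (by simpa using hi)
      simpa using this

theorem comp_tw (t : T3 A) (s : Fin 4) : comp (tw t) s = comp t (swp s) := by
  fin_cases s <;> rfl

/-- from a closed chain of triples to a nowhere-zero function -/
theorem admissible_of_chain (hn : 3 ≤ n) (b : Fin n × Fin 4 → A) (m : ℕ → T3 A)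
    (hcl : m n = tw (m 0)) (hst : ∀ i : Fin n, Step (blk b i) (m i) (m (i + 1))) :
    Admissible (flower n) b := by
  classical
  set x : Fin n × Fin 4 → A := fun v => comp (m v.1.val) v.2 with hx
  have hxn : ∀ v : Fin n × Fin 4, x (nx v) = comp (m (v.1.val + 1)) v.2 := by
    intro v
    by_cases h : v.1.val + 1 < n
    · have e1 : nx v = (⟨v.1.val + 1, h⟩, v.2) := by unfold nx; rw [dif_pos h]
      rw [e1]
    · have e1 : nx v = (⟨0, by omega⟩, swp v.2) := by unfold nx; rw [dif_neg h]
      have e2 : v.1.val + 1 = n := by have := v.1.2; omega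
      rw [e1, e2, hcl, comp_tw]
  set sp : Fin n × Fin 4 → A := fun v => x (nx v) - x v - b v with hsp
  have hspne : ∀ v : Fin n × Fin 4, v.2 ≠ 0 → sp v ≠ 0 := by
    rintro ⟨i, s⟩ hs h
    have h1 : comp (m (i.val + 1)) s = comp (m i.val) s + b (i, s) := by
      have h2 : x (nx (i, s)) - x (i, s) - b (i, s) = 0 := h
      rw [hxn] at h2
      have h3 : comp (m (i.val + 1)) s - comp (m i.val) s - b (i, s) = 0 := h2
      rw [sub_sub, sub_eq_zero] at h3
      exact h3
    obtain ⟨d1, d2, d3⟩ := (hst i).2.2.1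
    fin_cases s
    · exact hs rfl
    · exact d1 h1
    · exact d2 h1
    · exact d3 h1
  have hxne : ∀ v : Fin n × Fin 4, v.2 ≠ 0 → x v ≠ 0 := by
    rintro ⟨i, s⟩ hs h
    obtain ⟨d1, d2, d3⟩ := (hst i).1
    have h' : comp (m i.val) s = 0 := h
    fin_cases s
    · exact hs rfl
    · exact d1 h'
    · exact d2 h'
    · exact d3 h'
  have hcen : ∀ i : Fin n, sp (i, 1) + sp (i, 2) + sp (i, 3) = b (i, 0) := by
    intro i
    have h1 := (hst i).2.2.2
    have e1 : sp (i, 1) = (m (i.val + 1)).1 - (m i.val).1 - b (i, 1) := by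
      simp only [hsp, hxn]; rfl
    have e2 : sp (i, 2) = (m (i.val + 1)).2.1 - (m i.val).2.1 - b (i, 2) := by
      simp only [hsp, hxn]; rfl
    have e3 : sp (i, 3) = (m (i.val + 1)).2.2 - (m i.val).2.2 - b (i, 3) := by
      simp only [hsp, hxn]; rfl
    rw [e1, e2, e3]
    unfold sm blk at h1
    simp only at h1
    have h2 : (m (i.val + 1)).1 + (m (i.val + 1)).2.1 + (m (i.val + 1)).2.2 -
        ((m i.val).1 + (m i.val).2.1 + (m i.val).2.2) =
        b (i, 0) + b (i, 1) + b (i, 2) + b (i, 3) := by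
      rw [h1]; abel
    have h3 : (m (i.val + 1)).1 - (m i.val).1 - b (i, 1) +
        ((m (i.val + 1)).2.1 - (m i.val).2.1 - b (i, 2)) +
        ((m (i.val + 1)).2.2 - (m i.val).2.2 - b (i, 3)) =
        ((m (i.val + 1)).1 + (m (i.val + 1)).2.1 + (m (i.val + 1)).2.2 -
        ((m i.val).1 + (m i.val).2.1 + (m i.val).2.2)) - (b (i, 1) + b (i, 2) + b (i, 3)) := by abel
    rw [h3, h2]; abel
  set g : Fin n × Fin 4 → Fin n × Fin 4 → A := fun u v =>
    (if u.1 = v.1 ∧ u.2 = 0 ∧ v.2 ≠ 0 then sp v else 0) +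
    (if u.2 ≠ 0 ∧ nx u = v then x v else 0) with hg
  have hg0 : ∀ u v, ¬ FlowerRel n u v → g u v = 0 := by
    intro u v h
    rw [rel_iff] at h
    push Not at h
    simp only [hg]
    rw [if_neg (by rintro ⟨a1, a2, a3⟩; exact a3 (h.1 a1 a2)),
      if_neg (by rintro ⟨a1, a2⟩; exact h.2 a1 a2), add_zero]
  have hg1 : ∀ u v, FlowerRel n u v → g u v ≠ 0 := by
    intro u v h
    rw [rel_iff] at h
    simp only [hg]
    rcases h with h | h
    · rw [if_pos h, if_neg (by rintro ⟨a1, -⟩; exact a1 h.2.1), add_zero]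
      exact hspne v h.2.2
    · rw [if_neg (by rintro ⟨-, a1, -⟩; exact h.1 a1), if_pos h, zero_add]
      apply hxne
      rw [← h.2]
      exact (nx_ne u).2 h.1
  refine ⟨fun u v => g u v - g v u, ?_, ?_, ?_, ?_⟩
  · intro u v h
    rw [adj_iff hn] at h
    show g u v - g v u ≠ 0
    rcases h with h | h
    · rw [hg0 v u (rel_asymm hn _ _ h), sub_zero]; exact hg1 u v h
    · rw [hg0 u v (rel_asymm hn _ _ h), zero_sub]; exact neg_ne_zero.2 (hg1 v u h)
  · intro u v h
    rw [adj_iff hn] at h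
    push Not at h
    show g u v - g v u = 0
    rw [hg0 u v h.1, hg0 v u h.2, sub_zero]
  · intro u v; exact (neg_sub _ _).symm
  · intro u
    show ∑ v, (g u v - g v u) = b u
    rw [Finset.sum_sub_distrib]
    -- the sums of `g`
    have s1 : ∑ v, (if u.1 = v.1 ∧ u.2 = 0 ∧ v.2 ≠ 0 then sp v else 0) =
        if u.2 = 0 then b (u.1, 0) else 0 := by
      rw [Fintype.sum_prod_type]
      rw [Finset.sum_eq_single u.1]
      · rw [Fin.sum_univ_four]
        by_cases h : u.2 = 0
        · simp only [h]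
          rw [if_neg (by simp), if_pos (by simp), if_pos (by simp), if_pos (by simp), if_pos trivial,
            zero_add, hcen]
        · simp only [h, false_and, and_false, if_false, add_zero]
      · intro i _ hi
        apply Finset.sum_eq_zero
        intro s _
        rw [if_neg]
        rintro ⟨h, -⟩
        exact hi h.symm
      · intro h; exact absurd (Finset.mem_univ _) h
    have s2 : ∑ v, (if u.2 ≠ 0 ∧ nx u = v then x v else 0) = if u.2 ≠ 0 then x (nx u) else 0 := by
      by_cases h : u.2 ≠ 0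
      · simp only [h, true_and, if_true, ne_eq, not_false_eq_true]
        rw [Finset.sum_ite_eq]; simp
      · simp only [h, false_and, if_false, Finset.sum_const_zero]
    have s3 : ∑ v : Fin n × Fin 4, (if v.1 = u.1 ∧ v.2 = 0 ∧ u.2 ≠ 0 then sp u else 0) =
        if u.2 ≠ 0 then sp u else 0 := by
      rw [Finset.sum_eq_single (u.1, 0)]
      · by_cases h : u.2 ≠ 0
        · rw [if_pos ⟨rfl, rfl, h⟩, if_pos h]
        · rw [if_neg (fun h' => h h'.2.2), if_neg h]
      · intro v _ hv
        rw [if_neg]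
        rintro ⟨h1, h2, -⟩
        exact hv (Prod.ext h1 h2)
      · intro h; exact absurd (Finset.mem_univ _) h
    have s4 : ∑ v, (if v.2 ≠ 0 ∧ nx v = u then x u else 0) = if u.2 ≠ 0 then x u else 0 := by
      rw [Finset.sum_eq_single (pv u)]
      · by_cases h : u.2 ≠ 0
        · have : (pv u).2 ≠ 0 := by rw [← nx_ne, nx_pv]; exact h
          rw [if_pos ⟨this, nx_pv u⟩, if_pos h]
        · have : ¬ (pv u).2 ≠ 0 := by rw [← nx_ne, nx_pv]; exact h
          rw [if_neg (fun h' => this h'.1), if_neg h]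
      · intro v _ hv
        rw [if_neg]
        rintro ⟨-, h2⟩
        exact hv (by rw [← h2, pv_nx])
      · intro h; exact absurd (Finset.mem_univ _) h
    have t1 : ∑ v, g u v = (if u.2 = 0 then b (u.1, 0) else 0) +
        (if u.2 ≠ 0 then x (nx u) else 0) := by
      rw [← s1, ← s2, ← Finset.sum_add_distrib]
    have t2 : ∑ v, g v u = (if u.2 ≠ 0 then sp u else 0) + (if u.2 ≠ 0 then x u else 0) := by
      rw [← s3, ← s4, ← Finset.sum_add_distrib]
    rw [t1, t2]
    by_cases h : u.2 = 0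
    · have : (u.1, (0 : Fin 4)) = u := Prod.ext rfl h.symm
      simp [h, this]
    · rw [if_neg h, if_pos h, if_pos h, if_pos h]
      simp only [hsp]; abel

/-- from a nowhere-zero function to a closed chain of triples (zero boundary) -/
theorem chain_of_admissible (hn : 3 ≤ n) (h : Admissible (flower n) (0 : Fin n × Fin 4 → A)) :
    ∃ m : ℕ → T3 A, m n = tw (m 0) ∧ ∀ i, i < n → Step (0 : T3 A × A) (m i) (m (i + 1)) := by
  classical
  obtain ⟨f, hf1, hf2, hf3, hf4⟩ := h
  set x : Fin n × Fin 4 → A := fun v => f (pv v) v with hx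
  have hadj : ∀ v : Fin n × Fin 4, v.2 ≠ 0 → (flower n).Adj (pv v) v := by
    intro v hv
    rw [adj_iff hn, rel_iff]
    left; right
    exact ⟨by rw [← nx_ne, nx_pv]; exact hv, nx_pv v⟩
  have hadjc : ∀ v : Fin n × Fin 4, v.2 ≠ 0 → (flower n).Adj (v.1, 0) v := by
    intro v hv
    rw [adj_iff hn, rel_iff]
    left; left
    exact ⟨rfl, rfl, hv⟩
  have hxne : ∀ v : Fin n × Fin 4, v.2 ≠ 0 → x v ≠ 0 := fun v hv => hf1 _ _ (hadj v hv)
  -- Kirchhoff at a rim vertex
  have hrim : ∀ v : Fin n × Fin 4, v.2 ≠ 0 → f (v.1, 0) v = x (nx v) - x v := by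
    intro v hv
    have h1 := hf4 v
    have hd1 : nx v ≠ pv v := by
      intro h
      have := congrArg nx h
      rw [nx_pv] at this
      exact nx_nx_ne hn v this
    have hd2 : nx v ≠ (v.1, 0) := by
      intro h
      have := (nx_ne v).2 hv
      rw [h] at this
      exact this rfl
    have hd3 : pv v ≠ (v.1, 0) := by
      intro h
      have h2 : (pv v).2 ≠ 0 := by rw [← nx_ne, nx_pv]; exact hv
      rw [h] at h2
      exact h2 rfl
    have h2 : ∑ u, f v u = ∑ u ∈ ({nx v, pv v, (v.1, 0)} : Finset (Fin n × Fin 4)), f v u := by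
      symm
      apply Finset.sum_subset (Finset.subset_univ _)
      intro u _ hu
      apply hf2
      rw [adj_iff hn, rel_iff, rel_iff]
      rintro ((h | h) | (h | h))
      · exact hv h.2.1
      · apply hu; simp [← h.2]
      · apply hu
        have : u = (v.1, 0) := Prod.ext h.1 h.2.1
        simp [this]
      · apply hu
        have : u = pv v := by rw [← h.2, pv_nx]
        simp [this]
    rw [h2, Finset.sum_insert (by simp [hd1, hd2]), Finset.sum_insert (by simp [hd3]),
      Finset.sum_singleton] at h1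
    have e1 : f v (nx v) = x (nx v) := by simp only [hx, pv_nx]
    have e2 : f v (pv v) = - x v := by rw [hf3]
    have e3 : f v (v.1, 0) = - f (v.1, 0) v := hf3 _ _
    rw [e1, e2, e3] at h1
    have h1' : x (nx v) + (-x v + -f (v.1, 0) v) = 0 := h1
    have : f (v.1, 0) v = x (nx v) - x v - (x (nx v) + (-x v + -f (v.1, 0) v)) := by abel
    rw [this, h1', sub_zero]
  -- Kirchhoff at a centre
  have hcen : ∀ i : Fin n, f (i, 0) (i, 1) + f (i, 0) (i, 2) + f (i, 0) (i, 3) = 0 := by
    intro i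
    have h1 := hf4 (i, 0)
    have h2 : ∑ u, f (i, 0) u =
        ∑ u ∈ ({(i, 1), (i, 2), (i, 3)} : Finset (Fin n × Fin 4)), f (i, 0) u := by
      symm
      apply Finset.sum_subset (Finset.subset_univ _)
      intro u _ hu
      apply hf2
      rw [adj_iff hn, rel_iff, rel_iff]
      rintro ((h | h) | (h | h))
      · apply hu
        obtain ⟨j, s⟩ := u
        obtain ⟨h1, -, h3⟩ := h
        simp only at h1 h3
        subst h1
        fin_cases s
        · exact absurd rfl h3
        · simp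
        · simp
        · simp
      · exact h.1 rfl
      · exact h.2.2 rfl
      · have := (nx_ne u).2 h.1
        rw [h.2] at this
        exact this rfl
    rw [h2, Finset.sum_insert (by simp), Finset.sum_insert (by simp),
      Finset.sum_singleton] at h1
    rw [add_assoc]; exact h1
  set m : ℕ → T3 A := fun k =>
    if h : k < n then (x (⟨k, h⟩, 1), x (⟨k, h⟩, 2), x (⟨k, h⟩, 3))
    else tw (x (⟨0, by omega⟩, 1), x (⟨0, by omega⟩, 2), x (⟨0, by omega⟩, 3)) with hm
  have hmlt : ∀ k (h : k < n), m k = (x (⟨k, h⟩, 1), x (⟨k, h⟩, 2), x (⟨k, h⟩, 3)) := by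
    intro k h; simp only [hm]; rw [dif_pos h]
  have hnext : ∀ k (h : k < n), m (k + 1) =
      (x (nx (⟨k, h⟩, 1)), x (nx (⟨k, h⟩, 2)), x (nx (⟨k, h⟩, 3))) := by
    intro k h
    by_cases hk : k + 1 < n
    · rw [hmlt _ hk]
      unfold nx
      simp only [hk, dif_pos]
    · simp only [hm]
      rw [dif_neg hk]
      unfold nx
      simp only [hk, dif_neg, not_false_eq_true]
      rfl
  refine ⟨m, ?_, ?_⟩
  · rw [hmlt 0 (by omega)]
    simp only [hm]
    rw [dif_neg (lt_irrefl _)]
  · intro i hi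
    have hz1 : nz (m i) := by
      rw [hmlt i hi]
      exact ⟨hxne _ (by simp), hxne _ (by simp), hxne _ (by simp)⟩
    have hz2 : nz (m (i + 1)) := by
      rw [hnext i hi]
      exact ⟨hxne _ ((nx_ne _).2 (by simp)), hxne _ ((nx_ne _).2 (by simp)),
        hxne _ ((nx_ne _).2 (by simp))⟩
    have hr1 := hrim (⟨i, hi⟩, 1) (by simp)
    have hr2 := hrim (⟨i, hi⟩, 2) (by simp)
    have hr3 := hrim (⟨i, hi⟩, 3) (by simp)
    have hn1 := hf1 _ _ (hadjc (⟨i, hi⟩, 1) (by simp))
    have hn2 := hf1 _ _ (hadjc (⟨i, hi⟩, 2) (by simp))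
    have hn3 := hf1 _ _ (hadjc (⟨i, hi⟩, 3) (by simp))
    have hc := hcen ⟨i, hi⟩
    simp only at hr1 hr2 hr3 hn1 hn2 hn3 hc
    refine ⟨hz1, hz2, ?_, ?_⟩
    · rw [hmlt i hi, hnext i hi]
      rw [hr1, sub_ne_zero] at hn1
      rw [hr2, sub_ne_zero] at hn2
      rw [hr3, sub_ne_zero] at hn3
      refine ⟨?_, ?_, ?_⟩
      · simpa using hn1
      · simpa using hn2
      · simpa using hn3
    · rw [hr1, hr2, hr3] at hc
      rw [hmlt i hi, hnext i hi]
      unfold sm
      simp only [Prod.snd_zero, add_zero]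
      rw [← sub_eq_zero, ← hc]; abel

theorem chain_inv {κ : Type} (inv : T3 A → κ) (φ : κ → κ)
    (h1 : ∀ l r, Step (0 : T3 A × A) l r → inv r = φ (inv l)) (m : ℕ → T3 A) (k : ℕ)
    (hm : ∀ i, i < k → Step (0 : T3 A × A) (m i) (m (i + 1))) : inv (m k) = φ^[k] (inv (m 0)) := by
  induction k with
  | zero => rfl
  | succ k ih =>
    rw [h1 _ _ (hm k (Nat.lt_succ_self k)), ih (fun i hi => hm i (by omega)),
      Function.iterate_succ_apply']

theorem not_admissible_zero (hn : 3 ≤ n) (hodd : Odd n) {κ : Type} (inv : T3 A → κ) (φ : κ → κ)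
    (hφ : ∀ k, φ (φ k) = k)
    (h1 : ∀ l r, Step (0 : T3 A × A) l r → inv r = φ (inv l))
    (h2 : ∀ l r, Step (0 : T3 A × A) l r → inv (tw l) ≠ φ (inv l)) :
    ¬ Admissible (flower n) (0 : Fin n × Fin 4 → A) := by
  intro h
  obtain ⟨m, hcl, hm⟩ := chain_of_admissible hn h
  have h3 := chain_inv inv φ h1 m n hm
  obtain ⟨j, rfl⟩ := hodd
  have h4 : ∀ k : κ, φ^[2 * j + 1] k = φ k := by
    intro k
    rw [Function.iterate_succ_apply, Function.iterate_mul]
    have : φ^[2] = id := by funext k; simp [hφ]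
    rw [this]; simp
  rw [h4, hcl] at h3
  exact h2 (m 0) (m 1) (hm 0 (by omega)) h3

theorem admissible_zero_even (hn : 3 ≤ n) (he : Even n) (l r : T3 A)
    (h1 : Step (0 : T3 A × A) l r) (h2 : Step (0 : T3 A × A) r l) (h3 : tw l = l) :
    Admissible (flower n) (0 : Fin n × Fin 4 → A) := by
  apply admissible_of_chain hn 0 (fun k => if Even k then l else r)
  · simp only [he, if_true]
    rw [if_pos (by simp), h3]
  · intro i
    have hb : blk (0 : Fin n × Fin 4 → A) i = 0 := by
      unfold blk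
      simp
    rw [hb]
    by_cases h : Even i.val
    · have h' : ¬ Even (i.val + 1) := by rw [Nat.not_even_iff_odd]; exact h.add_one
      simp only [h, h', if_true, if_false]; exact h1
    · have h' : Even (i.val + 1) := by rw [Nat.not_even_iff_odd] at h; exact h.add_one
      simp only [h, h', if_true, if_false]; exact h2

theorem admissible_of_ne {T : Tab} (E : Enc A T) (K : Checks T)
    (hex : ∀ s : A, ∃ t : T3 A, nz t ∧ sm t = s) (hn : 5 ≤ n) (b : Fin n × Fin 4 → A)
    (hs : ∑ v, b v = 0) (hb : b ≠ 0) : Admissible (flower n) b := by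
  have hcl : Closes (List.ofFn (blk b)) := by
    apply closes_word E K hex
    · simpa using hn
    · unfold bs
      rw [List.map_ofFn, List.sum_ofFn, ← hs, Fintype.sum_prod_type]
      apply Finset.sum_congr rfl
      intro i _
      rw [Fin.sum_univ_four]
      rfl
    · by_contra hcon
      push Not at hcon
      apply hb
      funext v
      obtain ⟨i, s⟩ := v
      have h1 : blk b i = 0 := hcon _ (by simp)
      have h2 : b (i, 1) = 0 := congrArg (fun z : T3 A × A => z.1.1) h1
      have h3 : b (i, 2) = 0 := congrArg (fun z : T3 A × A => z.1.2.1) h1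
      have h4 : b (i, 3) = 0 := congrArg (fun z : T3 A × A => z.1.2.2) h1
      have h5 : b (i, 0) + b (i, 1) + b (i, 2) + b (i, 3) = 0 :=
        congrArg (fun z : T3 A × A => z.2) h1
      rw [h2, h3, h4, add_zero, add_zero, add_zero] at h5
      fin_cases s
      · exact h5
      · exact h2
      · exact h3
      · exact h4
  obtain ⟨l, hl⟩ := hcl
  obtain ⟨m, hm0, hm1, hm2⟩ := reach_iff _ _ _ hl
  rw [List.length_ofFn] at hm1
  refine admissible_of_chain (by omega) b m (by rw [hm1, hm0]) ?_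
  intro i
  have := hm2 i.val (by simp)
  simpa using this

end Alg

end Pool.Agent.FS
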