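import Pool.Agent.Lib_helper31.FS.DataV

set_option autoImplicit false

namespace Pool.Agent.FS.GV

theorem k_closed : chkClosed T MC = true := by decide +kernel
theorem k_F : chkF T fm = true := by decide +kernel
theorem k_box : chkBox T MB NB = true := by decide +kernel
theorem k_2 : chk2 T NB EX fm = true := by decide +kernel

end Pool.Agent.FS.GV
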