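import Pool.Agent.Lib_helper31.FS.DataZ

set_option autoImplicit false

namespace Pool.Agent.FS.GZ

theorem k_sta : (sta.all fun S => chkSta T S) = true := by decide +kernel
theorem k_idx2 : (E2.all fun C => C.2.2.all fun q => decide (q.2 < sta.length)) = true := by
  decide +kernel
theorem k_idx3 : (E3.all fun C => C.2.2.all fun q => decide (q.2 < sta.length)) = true := by
  decide +kernel
theorem k_cer2 : (E2.all fun C => chkCer T st fm C) = true := by decide +kernel
theorem k_cer3 : (E3.all fun C => chkCer T st fm C) = true := by decide +kernel
theorem k_X3 : (E3.all fun C => C.2.1 == 0) = true := by decide +kernel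

/-- every exceptional pair has a certificate -/
def ex2 : Bool := (List.range 256).all fun i =>
  EX i == (E2.foldl (fun acc C => if C.1.headD 0 == i then acc ||| 2 ^ (C.1.getD 1 0) else acc) 0)
theorem k_ex2 : ex2 = true := by decide +kernel
/-- every exceptional triple has a certificate -/
def ex3 : Bool := E2.all fun C => C.2.1 ==
  (E3.foldl (fun acc D => if D.1.take 2 == C.1 then acc ||| 2 ^ (D.1.getD 2 0) else acc) 0)
theorem k_ex3 : ex3 = true := by decide +kernel
def shape2 : Bool := E2.all fun C => C.1 == [C.1.headD 0, C.1.getD 1 0]
theorem k_shape2 : shape2 = true := by decide +kernel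
def shape3 : Bool := E3.all fun C => C.1 == C.1.take 2 ++ [C.1.getD 2 0]
theorem k_shape3 : shape3 = true := by decide +kernel

end Pool.Agent.FS.GZ
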