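import Pool.Agent.Lib_helper31.FS.EncZ
import Pool.Agent.Lib_helper31.FS.K1Z
import Pool.Agent.Lib_helper31.FS.K2Z
import Pool.Agent.Lib_helper31.FS.Graph

set_option autoImplicit false

namespace Pool.Agent.FS.GZ

def K : Checks T where
  fm := fm
  MB := MB
  NB := NB
  MC := MC
  EX := EX
  sta := sta
  E2 := E2
  E3 := E3
  closed := k_closed
  hF := k_F
  box := k_box
  h2 := k_2
  hsta := k_sta
  idx2 := k_idx2
  idx3 := k_idx3
  cer2 := k_cer2
  cer3 := k_cer3
  X3 := k_X3
  ex2 := k_ex2
  ex3 := k_ex3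
  shape2 := k_shape2
  shape3 := k_shape3

def invT : ℕ := 0x2800874005200000875076304310000004205310210000000000000000000000
def phiT : ℕ := 0xfedcba9106542387
def phi (k : Fin 16) : Fin 16 := ⟨(phiT >>> (4 * k.val)) % 16, Nat.mod_lt _ (by norm_num)⟩
def inv (t : T3 A) : Fin 16 := ⟨(invT >>> (4 * c t)) % 16, Nat.mod_lt _ (by norm_num)⟩

theorem phi_phi : ∀ k, phi (phi k) = k := by decide +kernel

instance instDecStep (B : T3 A × A) (l r : T3 A) : Decidable (Step B l r) := by
  unfold Step; infer_instance

theorem inv_step : ∀ l r : T3 A, Step (0 : T3 A × A) l r → inv r = phi (inv l) :=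
  all2 (fun l r => Step (0 : T3 A × A) l r → inv r = phi (inv l)) (by decide +kernel)

theorem inv_tw : ∀ l r : T3 A, Step (0 : T3 A × A) l r → inv (tw l) ≠ phi (inv l) :=
  all2 (fun l r => Step (0 : T3 A × A) l r → inv (tw l) ≠ phi (inv l)) (by decide +kernel)

theorem main (n : ℕ) (hn : 5 ≤ n) (b : Fin n × Fin 4 → A) (hs : ∑ v, b v = 0) :
    Admissible (flower n) b ↔ (b ≠ 0 ∨ Even n) := by
  constructor
  · intro h
    by_cases hb : b = 0
    · right
      subst hb
      by_contra hodd
      rw [Nat.not_even_iff_odd] at hodd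
      exact not_admissible_zero (by omega) hodd inv phi phi_phi inv_step inv_tw h
    · exact Or.inl hb
  · intro h
    by_cases hb : b = 0
    · subst hb
      rcases h with h | h
      · exact absurd rfl h
      · exact admissible_zero_even (by omega) h (1, 2, 2) (3, 1, 1) (by decide) (by decide) rfl
    · exact admissible_of_ne E K hex hn b hs hb

end Pool.Agent.FS.GZ
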