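import Mathlib
import Pool.Agent.Lib_helper90.FS.Defs

set_option autoImplicit false

/-! Block TW: the tower of subgroups. -/

namespace Pool.Agent.H90.FS

open scoped commutatorElement

universe u

/-- The isolator of `⁅K, K⁆ ⊔ N` in `K`. -/
private def TW_nxt {F : Type u} [Group F] (N K : Subgroup F) (hN : N.Normal) (hK : K.Normal) :
    Subgroup F where
  carrier := {x | x ∈ K ∧ ∃ n : ℕ, 0 < n ∧ x ^ n ∈ ⁅K, K⁆ ⊔ N}
  one_mem' := ⟨K.one_mem, 1, one_pos, by rw [one_pow]; exact Subgroup.one_mem _⟩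
  mul_mem' := by
    rintro x y ⟨hx, a, ha, hxa⟩ ⟨hy, b, hb, hyb⟩
    refine ⟨K.mul_mem hx hy, a * b, Nat.mul_pos ha hb, ?_⟩
    have : (⁅K, K⁆ ⊔ N : Subgroup F).Normal := inferInstance
    have key : ∀ z : F, (QuotientGroup.mk' (⁅K, K⁆ ⊔ N)) z = 1 ↔ z ∈ ⁅K, K⁆ ⊔ N := by
      intro z
      rw [← MonoidHom.mem_ker, QuotientGroup.ker_mk']
    have hc : Commute ((QuotientGroup.mk' (⁅K, K⁆ ⊔ N)) x)
        ((QuotientGroup.mk' (⁅K, K⁆ ⊔ N)) y) := by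
      have h1 : (QuotientGroup.mk' (⁅K, K⁆ ⊔ N)) (⁅x, y⁆) = 1 := by
        rw [key]
        exact (le_sup_left : ⁅K, K⁆ ≤ ⁅K, K⁆ ⊔ N) (Subgroup.commutator_mem_commutator hx hy)
      rw [map_commutatorElement] at h1
      exact commutatorElement_eq_one_iff_commute.mp h1
    rw [← key, map_pow, map_mul, hc.mul_pow, pow_mul, ← map_pow, (key _).mpr hxa, one_pow,
      one_mul, mul_comm a b, pow_mul, ← map_pow, (key _).mpr hyb, one_pow]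
  inv_mem' := by
    rintro x ⟨hx, a, ha, hxa⟩
    refine ⟨K.inv_mem hx, a, ha, ?_⟩
    rw [inv_pow]
    exact Subgroup.inv_mem _ hxa

private theorem TW_mem {F : Type u} [Group F] (N K : Subgroup F) (hN : N.Normal)
    (hK : K.Normal) (x : F) :
    x ∈ TW_nxt N K hN hK ↔ x ∈ K ∧ ∃ n : ℕ, 0 < n ∧ x ^ n ∈ ⁅K, K⁆ ⊔ N := Iff.rfl

private theorem TW_normal {F : Type u} [Group F] (N K : Subgroup F) (hN : N.Normal)
    (hK : K.Normal) : (TW_nxt N K hN hK).Normal := by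
  constructor
  rintro x ⟨hx, a, ha, hxa⟩ g
  refine ⟨hK.conj_mem x hx g, a, ha, ?_⟩
  have : (⁅K, K⁆ ⊔ N : Subgroup F).Normal := inferInstance
  rw [conj_pow]
  exact Subgroup.Normal.conj_mem inferInstance _ hxa g

/-- The sequence of subgroups `K 1, K 2, ...`. -/
private def TW_seq {F : Type u} [Group F] (N K₁ : Subgroup F) (hN : N.Normal)
    (hK : K₁.Normal) (hNK : N ≤ K₁) : ℕ → {K : Subgroup F // K.Normal ∧ N ≤ K}
  | 0 => ⟨K₁, hK, hNK⟩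
  | k + 1 => ⟨TW_nxt N (TW_seq N K₁ hN hK hNK k).1 hN (TW_seq N K₁ hN hK hNK k).2.1,
      TW_normal _ _ _ _, fun x hx => ⟨(TW_seq N K₁ hN hK hNK k).2.2 hx, 1, one_pos, by
        rw [pow_one]
        exact (le_sup_right : N ≤ ⁅(TW_seq N K₁ hN hK hNK k).1,
          (TW_seq N K₁ hN hK hNK k).1⁆ ⊔ N) hx⟩⟩

/-- BLOCK TW. The tower of subgroups. `K (k+2) = {x ∈ K (k+1) | some positive power of x lies in
⁅K (k+1), K (k+1)⁆ ⊔ N}`. -/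
theorem tower {F : Type u} [Group F] (N K₁ : Subgroup F) (hN : N.Normal) (hK : K₁.Normal)
    (hNK : N ≤ K₁) (h1 : ∀ x y : F, x * y * x⁻¹ * y⁻¹ ∈ K₁)
    (h2 : ∀ (x : F) (n : ℕ), 0 < n → x ^ n ∈ K₁ → x ∈ K₁) :
    ∃ K : ℕ → Subgroup F, K 0 = ⊤ ∧ K 1 = K₁ ∧ (∀ k, (K k).Normal) ∧ (∀ k, N ≤ K k) ∧
      (∀ k, K (k + 1) ≤ K k) ∧
      (∀ k, ∀ x ∈ K k, ∀ y ∈ K k, x * y * x⁻¹ * y⁻¹ ∈ K (k + 1)) ∧
      (∀ k, ∀ x ∈ K k, ∀ n : ℕ, 0 < n → x ^ n ∈ K (k + 1) → x ∈ K (k + 1)) ∧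
      (∀ k, ∀ x ∈ K (k + 2), ∃ n : ℕ, 0 < n ∧ x ^ n ∈ ⁅K (k + 1), K (k + 1)⁆ ⊔ N) := by
  let S := TW_seq N K₁ hN hK hNK
  let K : ℕ → Subgroup F := fun k => match k with
    | 0 => ⊤
    | k + 1 => (S k).1
  have hS : ∀ k x, x ∈ K (k + 2) ↔ x ∈ K (k + 1) ∧ ∃ n : ℕ, 0 < n ∧
      x ^ n ∈ ⁅K (k + 1), K (k + 1)⁆ ⊔ N := fun k x => Iff.rfl
  refine ⟨K, rfl, rfl, ?_, ?_, ?_, ?_, ?_, ?_⟩
  · rintro (_ | k)
    · exact (inferInstance : (⊤ : Subgroup F).Normal)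
    · exact (S k).2.1
  · rintro (_ | k)
    · exact le_top
    · exact (S k).2.2
  · rintro (_ | k)
    · exact le_top
    · exact fun x hx => ((hS k x).mp hx).1
  · rintro (_ | k) x hx y hy
    · exact h1 x y
    · refine (hS k _).mpr ⟨?_, 1, one_pos, ?_⟩
      · exact (K (k + 1)).mul_mem ((K (k + 1)).mul_mem ((K (k + 1)).mul_mem hx hy)
          ((K (k + 1)).inv_mem hx)) ((K (k + 1)).inv_mem hy)
      · rw [pow_one]
        exact (le_sup_left : ⁅K (k + 1), K (k + 1)⁆ ≤ ⁅K (k + 1), K (k + 1)⁆ ⊔ N)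
          (Subgroup.commutator_mem_commutator hx hy)
  · rintro (_ | k) x hx n hn hxn
    · exact h2 x n hn hxn
    · obtain ⟨_, a, ha, hxa⟩ := (hS k _).mp hxn
      exact (hS k _).mpr ⟨hx, n * a, Nat.mul_pos hn ha, by rw [pow_mul]; exact hxa⟩
  · exact fun k x hx => ((hS k x).mp hx).2

end Pool.Agent.H90.FS
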