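import Pool.Agent.Lib_helper31.FS.Check

set_option autoImplicit false

namespace Pool.Agent.FS

/-- all the finite checks -/
structure Checks (T : Tab) where
  fm : List ℕ
  MB : ℕ → ℕ
  NB : ℕ → ℕ
  MC : ℕ → ℕ
  EX : ℕ → ℕ
  sta : List Sta
  E2 : List Cer
  E3 : List Cer
  closed : chkClosed T MC = true
  hF : chkF T fm = true
  box : chkBox T MB NB = true
  h2 : chk2 T NB EX fm = true
  hsta : (sta.all fun S => chkSta T S) = true
  idx2 : (E2.all fun C => C.2.2.all fun q => decide (q.2 < sta.length)) = true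
  idx3 : (E3.all fun C => C.2.2.all fun q => decide (q.2 < sta.length)) = true
  cer2 : (E2.all fun C => chkCer T (fun k => sta.getD k (0, 0, 0, 0)) fm C) = true
  cer3 : (E3.all fun C => chkCer T (fun k => sta.getD k (0, 0, 0, 0)) fm C) = true
  X3 : (E3.all fun C => C.2.1 == 0) = true
  ex2 : ((List.range 256).all fun i =>
    EX i == (E2.foldl (fun acc C => if C.1.headD 0 == i then acc ||| 2 ^ (C.1.getD 1 0) else acc) 0))
    = true
  ex3 : (E2.all fun C => C.2.1 ==
    (E3.foldl (fun acc D => if D.1.take 2 == C.1 then acc ||| 2 ^ (D.1.getD 2 0) else acc) 0)) = true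
  shape2 : (E2.all fun C => C.1 == [C.1.headD 0, C.1.getD 1 0]) = true
  shape3 : (E3.all fun C => C.1 == C.1.take 2 ++ [C.1.getD 2 0]) = true

variable {A : Type} [AddCommGroup A] {T : Tab} (E : Enc A T) (K : Checks T)
  (hex : ∀ s : A, ∃ t : T3 A, nz t ∧ sm t = s)

theorem Checks.sta_ok (L : List Cer)
    (h : (L.all fun C => C.2.2.all fun q => decide (q.2 < K.sta.length)) = true)
    (C : Cer) (hC : C ∈ L) : ∀ q ∈ C.2.2, chkSta T (K.sta.getD q.2 (0, 0, 0, 0)) = true := by
  intro q hq
  rw [List.all_eq_true] at h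
  have h1 := h C hC
  rw [List.all_eq_true] at h1
  have h2 : q.2 < K.sta.length := by simpa using h1 q hq
  have h3 := K.hsta
  rw [List.all_eq_true] at h3
  rw [List.getD_eq_getElem _ _ h2]
  exact h3 _ (List.getElem_mem h2)

include hex in
theorem okp_four (B1 B2 B3 B4 : T3 A × A) (hne : B1 ≠ 0) : E.OKP K.fm [B1, B2, B3, B4] := by
  by_cases hx : (K.EX (E.ix B1)).testBit (E.ix B2) = false
  · have h := okp_two E K.fm K.MB K.NB K.EX K.box K.h2 B1 B2 hne hx
    exact okp_ext E K.MC K.closed hex K.fm [B1, B2] [B3, B4] h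
  · have hx' : (K.EX (E.ix B1)).testBit (E.ix B2) = true := by simpa using hx
    have h1 := K.ex2
    rw [List.all_eq_true] at h1
    have h2 := h1 (E.ix B1) (List.mem_range.2 (E.ix_lt B1))
    rw [beq_iff_eq] at h2
    rw [h2] at hx'
    rcases foldl_or _ (fun C : Cer => C.1.headD 0 == E.ix B1) _ _ _ hx' with h | ⟨C, hC, hC1, hC2⟩
    · simp at h
    rw [beq_iff_eq] at hC1
    rw [Nat.testBit_two_pow] at hC2
    have hC2' : C.1.getD 1 0 = E.ix B2 := by simpa using hC2
    have h3 := K.shape2
    rw [List.all_eq_true] at h3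
    have h4 := h3 C hC
    rw [beq_iff_eq, hC1, hC2'] at h4
    have hcer := K.cer2
    rw [List.all_eq_true] at hcer
    by_cases hy : (C.2.1).testBit (E.ix B3) = false
    · have h := okp_cer E K.fm _ C (hcer C hC) (K.sta_ok K.E2 K.idx2 C hC) [B1, B2]
        (by rw [h4]; rfl) B3 hy
      exact okp_ext E K.MC K.closed hex K.fm [B1, B2, B3] [B4] h
    · have hy' : (C.2.1).testBit (E.ix B3) = true := by simpa using hy
      have g1 := K.ex3
      rw [List.all_eq_true] at g1
      have g2 := g1 C hC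
      rw [beq_iff_eq] at g2
      rw [g2] at hy'
      rcases foldl_or _ (fun D : Cer => D.1.take 2 == C.1) _ _ _ hy' with h | ⟨D, hD, hD1, hD2⟩
      · simp at h
      rw [beq_iff_eq] at hD1
      rw [Nat.testBit_two_pow] at hD2
      have hD2' : D.1.getD 2 0 = E.ix B3 := by simpa using hD2
      have g3 := K.shape3
      rw [List.all_eq_true] at g3
      have g4 := g3 D hD
      rw [beq_iff_eq, hD1, hD2', h4] at g4
      have hcer' := K.cer3
      rw [List.all_eq_true] at hcer'
      have hX := K.X3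
      rw [List.all_eq_true] at hX
      have hX' := hX D hD
      rw [beq_iff_eq] at hX'
      exact okp_cer E K.fm _ D (hcer' D hD) (K.sta_ok K.E3 K.idx3 D hD) [B1, B2, B3]
        (by rw [g4]; rfl) B4 (by rw [hX']; simp)

omit [AddCommGroup A] in
theorem bs_map_twB [AddCommGroup A] (w : List (T3 A × A)) : bs (w.map twB) = bs w := by
  unfold bs
  rw [List.map_map]
  rfl

include E K hex in
theorem closes_word (w : List (T3 A × A)) (hlen : 5 ≤ w.length) (hs : bs w = 0)
    (hne : ∃ B ∈ w, B ≠ 0) : Closes w := by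
  obtain ⟨B1, hB, hB0⟩ := hne
  obtain ⟨u, v, rfl⟩ := List.append_of_mem hB
  apply closes_rotate
  rw [List.cons_append]
  have hlen' : 4 ≤ (v ++ u.map twB).length := by
    simp only [List.length_append, List.length_cons, List.length_map] at hlen ⊢; omega
  have hs' : bs (B1 :: (v ++ u.map twB)) = 0 := by
    rw [bs_append, bs_cons] at hs
    rw [bs_cons, bs_append, bs_map_twB, ← hs]; abel
  generalize v ++ u.map twB = x at hlen' hs'
  match x, hlen', hs' with
  | B2 :: B3 :: B4 :: B5 :: t, _, hs' =>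
    have hne : B5 :: t ≠ [] := by simp
    have e1 : B1 :: B2 :: B3 :: B4 :: B5 :: t =
        ([B1, B2, B3, B4] ++ (B5 :: t).dropLast) ++ [(B5 :: t).getLast hne] := by
      rw [List.append_assoc, List.dropLast_append_getLast]
      rfl
    rw [e1] at hs' ⊢
    apply closes_of_okp E K.fm K.hF _ _ _ hs'
    exact okp_ext E K.MC K.closed hex K.fm _ _ (okp_four E K hex B1 B2 B3 B4 hB0)

end Pool.Agent.FS
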